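import Mathlib
import Pool.Agent.Helper509.SphDefs
import Pool.Agent.Helper509.SphRed
import Pool.Agent.Helper509.Semi
import Pool.Agent.Helper509.Emp

set_option autoImplicit false

open MeasureTheory Filter Topology

namespace Pool.Agent.Results.MP_7cef9e_pr.SemicircleFails

open Pool.Agent.Helper509.SphDefs Pool.Agent.Helper509.Semi Pool.Agent.Helper509.Emp
  Pool.Agent.Helper509.SphRed

/-- Negative answer to the question: the semicircle law is compactly supported and freely infinitely
divisible, its R-transform is `z` (continued to the whole upper half-plane by `z`), there are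
admissible sequences of matrices for it, and for every admissible sequence the set of points `z` of
the upper half-plane at which `f_n(z)` does not converge to `R(z) = z` has positive measure. -/
theorem result :
    CompactProb semicircle ∧ FreelyInfDiv semicircle ∧ IsRContinuation semicircle (fun z => z) ∧
    (∃ E : ∀ n : ℕ, Matrix (Fin n) (Fin n) ℂ, Admissible E semicircle) ∧
    ∀ E : ∀ n : ℕ, Matrix (Fin n) (Fin n) ℂ, Admissible E semicircle →
      0 < volume {z : ℂ | 0 < z.im ∧ ¬ Tendsto (fun n : ℕ => fn n (E n) z) atTop (𝓝 z)} := by
  refine ⟨compactProb_semicircle, freelyInfDiv_semicircle,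
    ⟨differentiableOn_id, fun z => z, isRTransform_semicircle, Eventually.of_forall fun _ => rfl⟩,
    exists_admissible, ?_⟩
  intro E hE
  rw [pos_iff_ne_zero]
  intro h0
  obtain ⟨C, hC⟩ := hE.bdd
  have hae : ∀ᵐ z : ℂ, 0 < z.im → Tendsto (fun n : ℕ => fn n (E n) z) atTop (𝓝 z) := by
    rw [ae_iff]
    rw [← h0]
    congr 1
    ext z
    simp only [Set.mem_ofPred_eq, Classical.not_imp]
  have h1 := deriv_zero_of_tendsto E hE.herm hC (R := fun z => z) differentiableOn_id hae
    (z0 := Complex.I) (by simp)
  have h2 : deriv (fun z : ℂ => z) Complex.I = 1 := (hasDerivAt_id Complex.I).deriv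
  rw [h2] at h1
  exact one_ne_zero h1

end Pool.Agent.Results.MP_7cef9e_pr.SemicircleFails
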